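import Mathlib
import Pool.Agent.W745.RW.Stm

set_option autoImplicit false

/-! Project RW: the bound on a ball. -/

namespace Pool.Agent.W311.RW

open MeasureTheory Filter Topology Complex
open Pool.Agent.W745.RW

lemma cont_mul {B : Set ℂ} (hB : IsOpen B) {φ : ℂ → ℝ} (hφ : TF B φ) {f : ℂ → ℝ}
    (hf : ContinuousOn f B) : Continuous (fun z => φ z * f z) := by
  rw [continuous_iff_continuousAt]
  intro z
  by_cases hz : z ∈ tsupport φ
  · exact (hφ.1.continuous.continuousAt).mul (hf.continuousAt (hB.mem_nhds (hφ.2.2 hz)))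
  · have h0 : φ =ᶠ[𝓝 z] 0 := notMem_tsupport_iff_eventuallyEq.1 hz
    have h1 : (fun _ => (0 : ℝ)) =ᶠ[𝓝 z] (fun z => φ z * f z) := by
      filter_upwards [h0] with w hw
      simp [hw]
    exact continuousAt_const.congr h1

lemma int_mul {B : Set ℂ} (hB : IsOpen B) {φ : ℂ → ℝ} (hφ : TF B φ) {f : ℂ → ℝ}
    (hf : ContinuousOn f B) : Integrable (fun z => φ z * f z) :=
  (cont_mul hB hφ hf).integrable_of_hasCompactSupport (hφ.2.1.mul_right)

/-- RW-M: the moments of `|W_{2j}|²` (the statement of `SMo` with the intended parentheses) -/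
def SMo1 : Prop := ∀ (c₀ : ℂ) (r : ℝ) (h : ℕ → ℝ) (u : ℕ → ℂ → ℝ), Sys (Metric.ball c₀ r) h u →
  Bd (Metric.ball c₀ r) h u → ∀ φ, TF (Metric.ball c₀ r) φ → ∀ j k : ℕ, 1 ≤ j → 1 ≤ k →
  Tendsto (fun n => (∫ z, φ z * (‖W (h n) (u n) (2*j) z‖ ^ 2 * ‖W (h n) (u n) (2*k) z‖ ^ 2)) -
    (∫ z, φ z * u n z ^ 4)) atTop (𝓝 (if j = k then - ∫ z, φ z else - 2 * ∫ z, φ z))

theorem sf (hW : SW) (h2 : S2) (hM : SMo1) : SF := by
  intro c₀ r h u hs hb φ hφ hφ0 ε hε
  have hB : IsOpen (Metric.ball c₀ r) := Metric.isOpen_ball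
  obtain ⟨w, hw⟩ : ∃ w : ℕ → ℕ → ℂ → ℝ, ∀ n j z, w n j z = ‖W (h n) (u n) (2*j) z‖ ^ 2 :=
    ⟨_, fun _ _ _ => rfl⟩
  obtain ⟨J, hJ⟩ : ∃ J : ℝ, J = ∫ z, φ z := ⟨_, rfl⟩
  have hwc : ∀ n j, ContinuousOn (w n j) (Metric.ball c₀ r) := by
    intro n j
    have h0 := ((hW _ hB (h n) (u n) (hs.sol n)).1 (2*j)).continuousOn
    have h1 : w n j = fun z => ‖W (h n) (u n) (2*j) z‖ ^ 2 := funext fun z => hw n j z
    rw [h1]
    exact (h0.norm).pow 2
  have h1 : ∀ j : ℕ, Tendsto (fun n => ∫ z, φ z * w n j z) atTop (𝓝 J) := by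
    intro j
    have e := h2 _ hB h u hs hb φ hφ (2*j) (-(2*j))
    have hab : (2*(j:ℤ)).natAbs = 2*j := by omega
    have hCC : CC (2*(j:ℤ)) (-(2*(j:ℤ))) = 1 := by
      unfold CC
      rw [if_pos (by ring), hab, pow_mul]
      simp
    rw [hCC, one_mul] at e
    have e2 : ∀ n, ∫ z, (φ z : ℂ) * (W (h n) (u n) (2*j) z * W (h n) (u n) (-(2*j)) z) =
        ((∫ z, φ z * w n j z : ℝ) : ℂ) := by
      intro n
      rw [← integral_complex_ofReal]
      apply integral_congr_ae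
      filter_upwards with z
      by_cases hz : z ∈ tsupport φ
      · have hzB := hφ.2.2 hz
        have e3 := (hW _ hB (h n) (u n) (hs.sol n)).2.2.2 (2*j) z hzB
        rw [hab, pow_mul, neg_one_sq, one_pow, one_mul] at e3
        rw [← e3, Complex.mul_conj, Complex.normSq_eq_norm_sq, hw]
        push_cast
        rfl
      · rw [image_eq_zero_of_notMem_tsupport hz]
        simp
    simp only [e2] at e
    have e4 := (Complex.continuous_re.tendsto _).comp e
    rw [Complex.ofReal_re, ← hJ] at e4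
    exact e4
  have hI : ∀ n j k, Integrable (fun z => φ z * (w n j z * w n k z)) := fun n j k =>
    int_mul hB hφ ((hwc n j).mul (hwc n k))
  have hI1 : ∀ n j, Integrable (fun z => φ z * w n j z) := fun n j => int_mul hB hφ (hwc n j)
  have hI0 : Integrable φ := hφ.1.continuous.integrable_of_hasCompactSupport hφ.2.1
  -- choose N
  obtain ⟨N, hN⟩ := exists_nat_gt (J / ε)
  have hJ0 : 0 ≤ J := by rw [hJ]; exact integral_nonneg hφ0
  have hN0 : (0 : ℝ) < N := lt_of_le_of_lt (div_nonneg hJ0 hε.le) hN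
  have hN1 : J < ε * N := by rwa [div_lt_iff₀ hε, mul_comm] at hN
  have h3 : Tendsto (fun n => ∑ j ∈ Finset.Icc 1 N, ∫ z, φ z * w n j z) atTop
      (𝓝 (N * J)) := by
    have := tendsto_finset_sum (Finset.Icc 1 N) (fun j _ => h1 j)
    simpa using this
  have h4 : Tendsto (fun n => ∑ j ∈ Finset.Icc 1 N, ∑ k ∈ Finset.Icc 1 N,
      ((∫ z, φ z * (w n j z * w n k z)) - ∫ z, φ z * u n z ^ 4)) atTop
      (𝓝 (N * (N * (-2 * J) + J))) := by
    have h40 : (N : ℝ) * (N * (-2 * J) + J) = ∑ j ∈ Finset.Icc 1 N, ∑ k ∈ Finset.Icc 1 N,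
        (if j = k then -J else -2 * J) := by
      have h41 : ∀ j ∈ Finset.Icc 1 N, ∑ k ∈ Finset.Icc 1 N, (if j = k then -J else -2 * J) =
          N * (-2 * J) + J := by
        intro j hj
        have h42 : ∀ k ∈ Finset.Icc 1 N, (if j = k then -J else -2 * J) =
            -2 * J + (if j = k then J else 0) := by
          intro k _
          split_ifs <;> ring
        rw [Finset.sum_congr rfl h42, Finset.sum_add_distrib, Finset.sum_ite_eq, if_pos hj,
          Finset.sum_const, Nat.card_Icc, Nat.add_sub_cancel, nsmul_eq_mul]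
      rw [Finset.sum_congr rfl h41, Finset.sum_const, Nat.card_Icc, Nat.add_sub_cancel,
        nsmul_eq_mul]
    rw [h40]
    refine tendsto_finset_sum _ fun j hj => tendsto_finset_sum _ fun k hk => ?_
    have h5 := hM c₀ r h u hs hb φ hφ j k (Finset.mem_Icc.1 hj).1 (Finset.mem_Icc.1 hk).1
    rw [← hJ] at h5
    refine h5.congr fun n => ?_
    have h51 : ∫ z, φ z * (‖W (h n) (u n) (2*j) z‖ ^ 2 * ‖W (h n) (u n) (2*k) z‖ ^ 2) =
        ∫ z, φ z * (w n j z * w n k z) := by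
      apply integral_congr_ae
      filter_upwards with z
      rw [hw, hw]
    rw [h51]
  have h5 : ∀ n, 2 * N * (∑ j ∈ Finset.Icc 1 N, ∫ z, φ z * w n j z) - N ^ 2 * J ≤
      ∑ j ∈ Finset.Icc 1 N, ∑ k ∈ Finset.Icc 1 N, ∫ z, φ z * (w n j z * w n k z) := by
    intro n
    have h50 : 0 ≤ ∫ z, φ z * ((∑ j ∈ Finset.Icc 1 N, w n j z) - N) ^ 2 :=
      integral_nonneg fun z => mul_nonneg (hφ0 z) (sq_nonneg _)
    have h51 : ∀ z, φ z * ((∑ j ∈ Finset.Icc 1 N, w n j z) - N) ^ 2 =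
        (∑ j ∈ Finset.Icc 1 N, ∑ k ∈ Finset.Icc 1 N, φ z * (w n j z * w n k z)) -
        2 * N * (∑ j ∈ Finset.Icc 1 N, φ z * w n j z) + N ^ 2 * φ z := by
      intro z
      simp only [← Finset.mul_sum]
      rw [← Finset.sum_mul]
      ring
    simp only [h51] at h50
    have hA : Integrable (fun z => ∑ j ∈ Finset.Icc 1 N, ∑ k ∈ Finset.Icc 1 N,
        φ z * (w n j z * w n k z)) :=
      integrable_finset_sum _ fun j _ => integrable_finset_sum _ fun k _ => hI n j k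
    have hB' : Integrable (fun z => 2 * (N : ℝ) * (∑ j ∈ Finset.Icc 1 N, φ z * w n j z)) :=
      (integrable_finset_sum _ fun j _ => hI1 n j).const_mul _
    have hC : Integrable (fun z => (N : ℝ) ^ 2 * φ z) := hI0.const_mul _
    have e1 : ∫ z, ((∑ j ∈ Finset.Icc 1 N, ∑ k ∈ Finset.Icc 1 N, φ z * (w n j z * w n k z)) -
        2 * N * (∑ j ∈ Finset.Icc 1 N, φ z * w n j z) + N ^ 2 * φ z) =
        (∫ z, ((∑ j ∈ Finset.Icc 1 N, ∑ k ∈ Finset.Icc 1 N, φ z * (w n j z * w n k z)) -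
        2 * N * (∑ j ∈ Finset.Icc 1 N, φ z * w n j z))) + ∫ z, (N : ℝ) ^ 2 * φ z :=
      integral_add (hA.sub hB') hC
    rw [e1, integral_sub hA hB', integral_const_mul,
      integral_const_mul, integral_finset_sum _ (fun j _ => hI1 n j), ← hJ,
      integral_finset_sum _ (fun j _ => integrable_finset_sum _ fun k _ => hI n j k)] at h50
    have h52 : ∀ j ∈ Finset.Icc 1 N, ∫ z, ∑ k ∈ Finset.Icc 1 N, φ z * (w n j z * w n k z) =
        ∑ k ∈ Finset.Icc 1 N, ∫ z, φ z * (w n j z * w n k z) := fun j _ =>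
      integral_finset_sum _ (fun k _ => hI n j k)
    rw [Finset.sum_congr rfl h52] at h50
    linarith
  have h6 : Tendsto (fun n => 2 * N * (∑ j ∈ Finset.Icc 1 N, ∫ z, φ z * w n j z) - N ^ 2 * J -
      (∑ j ∈ Finset.Icc 1 N, ∑ k ∈ Finset.Icc 1 N,
      ((∫ z, φ z * (w n j z * w n k z)) - ∫ z, φ z * u n z ^ 4))) atTop
      (𝓝 (2 * N * (N * J) - N ^ 2 * J - (N * (N * (-2 * J) + J)))) :=
    (((h3.const_mul _).sub_const _).sub h4)
  have h7 : (N : ℝ) ^ 2 * (3 * J - ε) < 2 * N * (N * J) - N ^ 2 * J - (N * (N * (-2 * J) + J)) := by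
    have := mul_lt_mul_of_pos_left hN1 hN0
    nlinarith
  filter_upwards [h6.eventually (lt_mem_nhds h7)] with n hn
  have h8 := h5 n
  simp only [Finset.sum_sub_distrib, Finset.sum_const, Nat.card_Icc, Nat.add_sub_cancel,
    nsmul_eq_mul] at hn
  rw [← hJ]
  have hN2 : (0 : ℝ) < (N : ℝ) ^ 2 := by positivity
  have h9 : (N : ℝ) ^ 2 * (3 * J - ε) < (N : ℝ) ^ 2 * ∫ z, φ z * u n z ^ 4 := by
    nlinarith
  exact (lt_of_mul_lt_mul_left h9 hN2.le).le

end Pool.Agent.W311.RW
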